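import Mathlib

set_option autoImplicit false

namespace Pool.Agent.Results.MP_a6ecd6_co.NoPlex

/-- `Q` is a `d`-dimensional latin hypercube of order `n`: whenever all coordinates but one are
fixed, the remaining one produces every symbol exactly once. -/
def IsLatinHypercube {d n : ℕ} (Q : (Fin d → Fin n) → Fin n) : Prop :=
  ∀ (i : Fin d) (x : Fin d → Fin n), Function.Bijective fun a : Fin n => Q (Function.update x i a)

/-- `K` is a `k`-multiplex of `Q`: a multiset of `k * n` cells with exactly `k` elements in every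
hyperplane and exactly `k` elements carrying every symbol (with multiplicity). -/
def IsMultiplex {d n : ℕ} (Q : (Fin d → Fin n) → Fin n) (k : ℕ)
    (K : Multiset (Fin d → Fin n)) : Prop :=
  K.card = k * n ∧ (∀ (i : Fin d) (a : Fin n), (K.filter fun x => x i = a).card = k) ∧
    ∀ s : Fin n, (K.filter fun x => Q x = s).card = k

/-- A `k`-plex is a `k`-multiplex with no repeated cell. -/
def IsPlex {d n : ℕ} (Q : (Fin d → Fin n) → Fin n) (k : ℕ)
    (K : Multiset (Fin d → Fin n)) : Prop :=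
  IsMultiplex Q k K ∧ K.Nodup

/-- A latin square of order 6 without transversals. -/
def table : Fin 6 → Fin 6 → Fin 6 :=
  ![![0, 1, 2, 3, 4, 5],
    ![1, 0, 3, 2, 5, 4],
    ![2, 4, 0, 5, 1, 3],
    ![3, 5, 1, 4, 2, 0],
    ![4, 3, 5, 1, 0, 2],
    ![5, 2, 4, 0, 3, 1]]

def sq (x : Fin 2 → Fin 6) : Fin 6 := table (x 0) (x 1)

theorem sq_latin : IsLatinHypercube sq := by
  intro i x
  rw [Fintype.bijective_iff_injective_and_card]
  refine ⟨?_, rfl⟩
  have hrow : ∀ r c c' : Fin 6, table r c = table r c' → c = c' := by decide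
  have hcol : ∀ c r r' : Fin 6, table r c = table r' c → r = r' := by decide
  intro a b hab
  fin_cases i
  · simp only [sq] at hab
    exact hcol _ _ _ hab
  · simp only [sq] at hab
    exact hrow _ _ _ hab

set_option synthInstance.maxSize 100000 in
set_option maxRecDepth 100000 in
theorem no_transversal : ∀ a0 a1 : Fin 6, (a1 ≠ a0 ∧ table 1 a1 ≠ table 0 a0) →
    ∀ a2 : Fin 6, (a2 ≠ a0 ∧ a2 ≠ a1 ∧ table 2 a2 ≠ table 0 a0 ∧ table 2 a2 ≠ table 1 a1) →
    ∀ a3 : Fin 6, (a3 ≠ a0 ∧ a3 ≠ a1 ∧ a3 ≠ a2 ∧ table 3 a3 ≠ table 0 a0 ∧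
      table 3 a3 ≠ table 1 a1 ∧ table 3 a3 ≠ table 2 a2) →
    ∀ a4 : Fin 6, (a4 ≠ a0 ∧ a4 ≠ a1 ∧ a4 ≠ a2 ∧ a4 ≠ a3 ∧ table 4 a4 ≠ table 0 a0 ∧
      table 4 a4 ≠ table 1 a1 ∧ table 4 a4 ≠ table 2 a2 ∧ table 4 a4 ≠ table 3 a3) →
    ∀ a5 : Fin 6, ¬ (a5 ≠ a0 ∧ a5 ≠ a1 ∧ a5 ≠ a2 ∧ a5 ≠ a3 ∧ a5 ≠ a4 ∧
      table 5 a5 ≠ table 0 a0 ∧ table 5 a5 ≠ table 1 a1 ∧ table 5 a5 ≠ table 2 a2 ∧
      table 5 a5 ≠ table 3 a3 ∧ table 5 a5 ≠ table 4 a4) := by
  decide

/-- The multiset: a 2-plex plus a 3-plex. -/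
def mult : Fin 6 → Fin 6 → ℕ :=
  ![![2, 2, 1, 0, 0, 0],
    ![2, 1, 1, 0, 1, 0],
    ![0, 1, 0, 2, 0, 2],
    ![0, 1, 0, 1, 2, 1],
    ![1, 0, 1, 1, 0, 2],
    ![0, 0, 2, 1, 2, 0]]

def K5 : Multiset (Fin 2 → Fin 6) :=
  ∑ i : Fin 6, ∑ j : Fin 6, Multiset.replicate (mult i j) ![i, j]

theorem K5_filter (P : (Fin 2 → Fin 6) → Prop) [DecidablePred P] :
    (K5.filter P).card = ∑ i : Fin 6, ∑ j : Fin 6, if P ![i, j] then mult i j else 0 := by
  unfold K5
  rw [← Multiset.countP_eq_card_filter, ← Multiset.coe_countPAddMonoidHom, map_sum]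
  refine Finset.sum_congr rfl fun i _ => ?_
  rw [map_sum]
  refine Finset.sum_congr rfl fun j _ => ?_
  rw [Multiset.coe_countPAddMonoidHom, Multiset.countP_eq_card_filter]
  split_ifs with h
  · rw [Multiset.filter_eq_self.2]
    · simp
    · intro a ha; rw [Multiset.eq_of_mem_replicate ha]; exact h
  · rw [Multiset.filter_eq_nil.2]
    · simp
    · intro a ha; rw [Multiset.eq_of_mem_replicate ha]; exact h

theorem K5_multiplex : IsMultiplex sq 5 K5 := by
  refine ⟨?_, ?_, ?_⟩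
  · have := K5_filter (fun _ => True)
    rw [Multiset.filter_true] at this
    rw [this]
    decide
  · intro i a
    rw [K5_filter]
    revert i a
    decide
  · intro s
    rw [K5_filter]
    revert s
    decide

/-- If six cells satisfy `P` and a nodup multiset contains exactly five of them, exactly one is
missing. -/
theorem missing {P : (Fin 2 → Fin 6) → Prop} [DecidablePred P] {K : Multiset (Fin 2 → Fin 6)}
    (hK : K.Nodup) (h5 : (K.filter P).card = 5)
    (h6 : (Finset.univ.filter P).card = 6) :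
    ∃ x, (P x ∧ x ∉ K) ∧ ∀ y, (P y ∧ y ∉ K) → y = x := by
  classical
  have hc : (K.toFinset.filter P).card = 5 := by
    rw [← h5, ← Multiset.toFinset_filter, Multiset.toFinset_card_of_nodup (hK.filter _)]
  have h1 : ((Finset.univ.filter P) \ (K.toFinset.filter P)).card = 1 := by
    rw [Finset.card_sdiff_of_subset, h6, hc]
    intro x hx
    simp only [Finset.mem_filter, Finset.mem_univ, true_and] at hx ⊢
    exact hx.2
  obtain ⟨x, hx⟩ := Finset.card_eq_one.1 h1
  have key : ∀ y, (P y ∧ y ∉ K) ↔ y = x := by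
    intro y
    rw [← Finset.mem_singleton, ← hx]
    simp only [Finset.mem_sdiff, Finset.mem_filter, Finset.mem_univ, true_and,
      Multiset.mem_toFinset]
    tauto
  exact ⟨x, (key x).2 rfl, fun y hy => (key y).1 hy⟩

theorem no_plex : ¬ ∃ K : Multiset (Fin 2 → Fin 6), IsPlex sq 5 K := by
  rintro ⟨K, ⟨-, hhyp, hsym⟩, hnd⟩
  have hrowc : ∀ a : Fin 6, (Finset.univ.filter fun x : Fin 2 → Fin 6 => x 0 = a).card = 6 := by
    decide
  have hcolc : ∀ a : Fin 6, (Finset.univ.filter fun x : Fin 2 → Fin 6 => x 1 = a).card = 6 := by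
    decide
  have hsymc : ∀ a : Fin 6, (Finset.univ.filter fun x : Fin 2 → Fin 6 => sq x = a).card = 6 := by
    decide
  have hr := fun a => missing hnd (hhyp 0 a) (hrowc a)
  have hc := fun a => missing hnd (hhyp 1 a) (hcolc a)
  have hs := fun a => missing hnd (hsym a) (hsymc a)
  choose f hf hfu using hr
  have hf0 : ∀ a, f a 0 = a := fun a => (hf a).1
  have hcol : ∀ a b, f a 1 = f b 1 → a = b := by
    intro a b hab
    obtain ⟨x, -, hx⟩ := hc (f a 1)
    have h1 := hx (f a) ⟨rfl, (hf a).2⟩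
    have h2 := hx (f b) ⟨hab.symm, (hf b).2⟩
    have := congrFun (h1.trans h2.symm) 0
    rwa [hf0, hf0] at this
  have hsy : ∀ a b, table a (f a 1) = table b (f b 1) → a = b := by
    intro a b hab
    have ha : sq (f a) = table a (f a 1) := by simp only [sq, hf0]
    have hb : sq (f b) = table b (f b 1) := by simp only [sq, hf0]
    obtain ⟨x, -, hx⟩ := hs (sq (f a))
    have h1 := hx (f a) ⟨rfl, (hf a).2⟩
    have h2 := hx (f b) ⟨by rw [ha, hb, hab], (hf b).2⟩
    have := congrFun (h1.trans h2.symm) 0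
    rwa [hf0, hf0] at this
  have hc' : ∀ a b : Fin 6, a ≠ b → f a 1 ≠ f b 1 := fun a b h h' => h (hcol a b h')
  have hs' : ∀ a b : Fin 6, a ≠ b → table a (f a 1) ≠ table b (f b 1) :=
    fun a b h h' => h (hsy a b h')
  exact no_transversal (f 0 1) (f 1 1) ⟨hc' 1 0 (by decide), hs' 1 0 (by decide)⟩
    (f 2 1) ⟨hc' 2 0 (by decide), hc' 2 1 (by decide), hs' 2 0 (by decide), hs' 2 1 (by decide)⟩
    (f 3 1) ⟨hc' 3 0 (by decide), hc' 3 1 (by decide), hc' 3 2 (by decide), hs' 3 0 (by decide), hs' 3 1 (by decide), hs' 3 2 (by decide)⟩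
    (f 4 1) ⟨hc' 4 0 (by decide), hc' 4 1 (by decide), hc' 4 2 (by decide), hc' 4 3 (by decide), hs' 4 0 (by decide), hs' 4 1 (by decide), hs' 4 2 (by decide), hs' 4 3 (by decide)⟩
    (f 5 1) ⟨hc' 5 0 (by decide), hc' 5 1 (by decide), hc' 5 2 (by decide), hc' 5 3 (by decide), hc' 5 4 (by decide), hs' 5 0 (by decide), hs' 5 1 (by decide), hs' 5 2 (by decide), hs' 5 3 (by decide), hs' 5 4 (by decide)⟩

/-- **MP_a6ecd6_co, Q1, answered negatively.**  There are `d ≥ 2`, `n ≥ 1`, `1 ≤ k ≤ n ^ (d - 1)`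
and a `d`-dimensional latin hypercube of order `n` (namely `d = 2`, `n = 6`, `k = 5`) that has a
`k`-multiplex but no `k`-plex. -/
theorem result : ¬ ∀ (d n k : ℕ) (Q : (Fin d → Fin n) → Fin n), 2 ≤ d → 1 ≤ n → 1 ≤ k →
    k ≤ n ^ (d - 1) → IsLatinHypercube Q → (∃ K, IsMultiplex Q k K) → ∃ K, IsPlex Q k K := by
  intro h
  exact no_plex (h 2 6 5 sq (by norm_num) (by norm_num) (by norm_num) (by norm_num) sq_latin
    ⟨K5, K5_multiplex⟩)

end Pool.Agent.Results.MP_a6ecd6_co.NoPlex
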